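import Pool.Agent.KS6_4.FT.Fab

set_option autoImplicit false

/-!
# Abelianizations of the open subgroups of a group of finite type

`treeAut (Fin d)` is the automorphism group of the `d`-regular rooted tree, `GP D P` the group of
finite type given by the group `P` of patterns of depth `D`, `St G n` the stabilizer of level `n`
in `G`, `cl S` the closure of a set and `clS L` the closure of a subgroup, as a subgroup.
-/

namespace Pool.Agent.Results.MP_66c699_al.OpenSubgroups

open Pool.R699.TreeFT Pool.Agent.KS6_4.FT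

/-- `H` is an open subgroup of `G`: it contains the stabilizer of some level. -/
def OpenIn {X : Type*} (G H : Subgroup (treeAut X)) : Prop := H ≤ G ∧ ∃ n, St G n ≤ H

/-- `G` is topologically finitely generated: it has a dense finitely generated subgroup. -/
def TopFG {X : Type*} (G : Subgroup (treeAut X)) : Prop :=
  ∃ Γ : Subgroup (treeAut X), Γ.FG ∧ Γ ≤ G ∧ (G : Set (treeAut X)) ⊆ cl (Γ : Set (treeAut X))

/-- `G` is transitive on every level. -/
def LevelTransitive {X : Type*} (G : Subgroup (treeAut X)) : Prop :=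
  ∀ v w : List X, v.length = w.length → ∃ g ∈ G, act g v = w

/-- Every nontrivial closed normal subgroup of `G` has finite index. -/
def JustInfinite {X : Type*} (G : Subgroup (treeAut X)) : Prop :=
  ∀ N : Subgroup (treeAut X), N ≤ G → (∀ g ∈ G, ∀ ν ∈ N, g * ν * g⁻¹ ∈ N) →
    cl (N : Set (treeAut X)) ⊆ N → N ≠ ⊥ → N.relIndex G ≠ 0

/-- Let `G` be a group of finite type given by patterns of depth `D` on the `d`-regular rooted tree.

(1) There is one `N > 0` such that `g ^ N` is in the closure of the commutator subgroup of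
`St_G(n)` for all `g ∈ St_G(n)` and all `n ≥ D - 1` (the case `n = D - 1` is the question).

(2) For every open subgroup `H` of `G` the quotient of `H` by the closure of its commutator
subgroup has finite exponent.

(3) If `G` is topologically finitely generated, then this quotient is finite for all open
subgroups `H`.

(4) If `G` is topologically finitely generated and level-transitive, then it is just infinite. -/
theorem result (d : ℕ) (hd : 2 ≤ d) (D : ℕ) (hD : 1 ≤ D)
    (P : Subgroup (Equiv.Perm {v : List (Fin d) // v.length ≤ D})) :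
    (∃ N : ℕ, 0 < N ∧ ∀ n, D - 1 ≤ n → ∀ g ∈ St (GP D P) n,
      g ^ N ∈ cl ((⁅St (GP D P) n, St (GP D P) n⁆ : Subgroup (treeAut (Fin d))) :
        Set (treeAut (Fin d)))) ∧
    (∀ H : Subgroup (treeAut (Fin d)), OpenIn (GP D P) H → ∃ M : ℕ, 0 < M ∧ ∀ g ∈ H,
      g ^ M ∈ cl ((⁅H, H⁆ : Subgroup (treeAut (Fin d))) : Set (treeAut (Fin d)))) ∧
    (TopFG (GP D P) → ∀ H : Subgroup (treeAut (Fin d)), OpenIn (GP D P) H →
      (clS ⁅H, H⁆).relIndex H ≠ 0) ∧
    (TopFG (GP D P) → LevelTransitive (GP D P) → JustInfinite (GP D P)) := by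
  haveI : Nonempty (Fin d) := ⟨⟨0, by omega⟩⟩
  refine ⟨levels hD P, ?_, ?_, ?_⟩
  · rintro H ⟨h2, n, h1⟩
    exact opens hD P h1 h2
  · rintro ⟨Γ, hΓ, hΓG, hdense⟩ H ⟨h2, n, h1⟩
    exact fab hD hΓ hΓG hdense h1 h2
  · rintro ⟨Γ, hΓ, hΓG, hdense⟩ htr N hNG hnorm hcl hne
    exact just_infinite hD hΓ hΓG hdense htr hNG hnorm hcl hne

end Pool.Agent.Results.MP_66c699_al.OpenSubgroups
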